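import Mathlib
import Pool.Agent.V11313.Conv

namespace Pool.Agent.Results.MP_ec348e_an.VagueNotMean

open Filter Topology MonoidAlgebra Pool.Agent.V11313.Conv

/-- A (summable) function `μ` on the discrete group `G`, i.e. an element of `M(G) = ℓ¹(G)`, is
vague-ergodic if the averages `(μ + μ² + ⋯ + μⁿ) / n` of its convolution powers converge in the
topology `σ(M(G), C₀(G))` to some `μc ∈ M(G)`. -/
def VagueErgodic {G : Type} [Group G] (μ : G → ℂ) : Prop :=
  ∃ μc : G → ℂ, Summable (fun x => ‖μc x‖) ∧ ∀ φ : G → ℂ, Tendsto φ cofinite (𝓝 0) →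
    Tendsto (fun n : ℕ => ∑' x, φ x * ((n : ℂ)⁻¹ * ∑ k ∈ Finset.range n, cpow μ (k + 1) x)) atTop
      (𝓝 (∑' x, φ x * μc x))

/-- The average `(T f + T² f + ⋯ + Tⁿ f) / n` for the convolution operator `T f = μ * f`. -/
noncomputable def avg {G : Type} [Group G] (μ f : G → ℂ) (n : ℕ) (x : G) : ℂ :=
  (n : ℂ)⁻¹ * ∑ k ∈ Finset.range n, ((conv μ)^[k + 1] f) x

/-- Membership in `Lᵖ(G) = ℓᵖ(G)`. -/
def MemL {G : Type} (p : ℝ) (f : G → ℂ) : Prop := Summable fun x => ‖f x‖ ^ p

/-- The convolution operator `λ_p(μ)` is mean ergodic on `ℓᵖ(G)`: for every `f ∈ ℓᵖ(G)` the averages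
`(T f + T² f + ⋯ + Tⁿ f) / n` converge in the norm of `ℓᵖ(G)`. -/
def MeanErgodic {G : Type} [Group G] (p : ℝ) (μ : G → ℂ) : Prop :=
  ∀ f, MemL p f → ∃ g, MemL p g ∧
    Tendsto (fun n : ℕ => ∑' x, ‖avg μ f n x - g x‖ ^ p) atTop (𝓝 0)

/-- The measure. -/
noncomputable def m : ℂ[G3] := s + N * (s - 1)

lemma m_pow (k : ℕ) : m ^ (k + 1) = s ^ (k + 1) + ((k : ℂ) + 1) • (N * (s ^ (k + 1) - s ^ k)) := by
  induction k with
  | zero => simp [m]
  | succ k ih =>
    have hs : s * N = N * s := s_comm N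
    have hsk : ∀ j : ℕ, s ^ j * N = N * s ^ j := by
      intro j
      induction j with
      | zero => simp
      | succ j ih => rw [pow_succ, mul_assoc, hs, ← mul_assoc, ih, mul_assoc]
    rw [pow_succ, ih, m, add_mul, mul_add, ← pow_succ, smul_mul_assoc]
    have e1 : s ^ (k + 1) * (N * (s - 1)) = N * (s ^ (k + 1 + 1) - s ^ (k + 1)) := by
      rw [← mul_assoc, hsk, mul_assoc, mul_sub, mul_one, ← pow_succ]
    have e2 : N * (s ^ (k + 1) - s ^ k) * (s + N * (s - 1)) =
        N * (s ^ (k + 1 + 1) - s ^ (k + 1)) := by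
      have e3 : N * (s ^ (k + 1) - s ^ k) * (N * (s - 1)) =
          (N * N) * ((s ^ (k + 1) - s ^ k) * (s - 1)) := by
        have : N * (s ^ (k + 1) - s ^ k) * (N * (s - 1)) =
          N * (s ^ (k + 1) * N - s ^ k * N) * (s - 1) := by noncomm_ring
        rw [this, hsk, hsk]
        noncomm_ring
      rw [mul_add, e3, N_sq, zero_mul, add_zero, mul_assoc, sub_mul, ← pow_succ, ← pow_succ]
    rw [e1, e2]
    push_cast
    rw [add_smul ((k : ℂ) + 1) 1, one_smul]
    abel

/-- The averages. -/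
noncomputable def nu (n : ℕ) : ℂ[G3] := (n : ℂ)⁻¹ • ∑ k ∈ Finset.range n, m ^ (k + 1)

lemma sum_pow (n : ℕ) : ∑ k ∈ Finset.range n, m ^ (k + 1) =
    ∑ k ∈ Finset.range n, (s * s ^ k - N * s ^ k) + (n : ℂ) • (N * s ^ n) := by
  induction n with
  | zero => simp
  | succ n ih =>
    rw [Finset.sum_range_succ, ih, Finset.sum_range_succ, m_pow, mul_sub, smul_sub, pow_succ' s n]
    push_cast
    rw [add_smul, add_smul, one_smul, one_smul]
    abel

lemma nu_eq (n : ℕ) (hn : n ≠ 0) : nu n =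
    (n : ℂ)⁻¹ • ∑ k ∈ Finset.range n, (s - N) * s ^ k + N * s ^ n := by
  have hn' : (n : ℂ) ≠ 0 := by exact_mod_cast hn
  rw [nu, sum_pow, smul_add, smul_smul, inv_mul_cancel₀ hn', one_smul]
  simp only [sub_mul]

lemma coeff_mul_s (x : ℂ[G3]) (k : ℕ) (g : G3) : (x * s ^ k).coeff g = x.coeff (g * z (-k)) := by
  rw [s_pow, coeff_mul_single_eq_coeff_mul (g * z (-k)), mul_one]
  intro y _
  have h : z (-k) * z k = 1 := by
    ext : 1
    · simp [z]
    · simp [z, ← ofAdd_add]
  have h' : z k * z (-k) = 1 := by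
    ext : 1
    · simp [z]
    · simp [z, ← ofAdd_add]
  constructor
  · intro hy
    rw [← hy, mul_assoc, h', mul_one]
  · intro hy
    rw [hy, mul_assoc, h, mul_one]

/-- pairing with a function -/
noncomputable def pair (φ : G3 → ℂ) (x : ℂ[G3]) : ℂ := ∑' g, φ g * x.coeff g

lemma pair_eq (φ : G3 → ℂ) (x : ℂ[G3]) : pair φ x = x.coeff.sum fun g c => c * φ g := by
  rw [pair, ← tsum_support]
  exact tsum_congr fun g => mul_comm _ _

lemma pair_add (φ : G3 → ℂ) (x y : ℂ[G3]) : pair φ (x + y) = pair φ x + pair φ y := by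
  rw [pair_eq, pair_eq, pair_eq, coeff_add]
  exact Finsupp.sum_add_index' (by simp) (by intros; ring)

lemma pair_smul (φ : G3 → ℂ) (c : ℂ) (x : ℂ[G3]) : pair φ (c • x) = c * pair φ x := by
  rw [pair, pair, ← tsum_mul_left]
  apply tsum_congr
  intro g
  rw [coeff_smul, Finsupp.smul_apply, smul_eq_mul]
  ring

lemma pair_sum (φ : G3 → ℂ) (n : ℕ) (f : ℕ → ℂ[G3]) :
    pair φ (∑ k ∈ Finset.range n, f k) = ∑ k ∈ Finset.range n, pair φ (f k) := by
  induction n with
  | zero => simp [pair]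
  | succ n ih => rw [Finset.sum_range_succ, Finset.sum_range_succ, pair_add, ih]

lemma pair_single (φ : G3 → ℂ) (g : G3) (c : ℂ) : pair φ (single g c) = c * φ g := by
  rw [pair_eq, coeff_single, Finsupp.sum_single_index (by simp)]

lemma pair_tendsto (φ : G3 → ℂ) (hφ : Tendsto φ cofinite (𝓝 0)) (x : ℂ[G3]) :
    Tendsto (fun n : ℕ => pair φ (x * s ^ n)) atTop (𝓝 0) := by
  induction x using MonoidAlgebra.induction_linear with
  | zero => simp [pair]
  | add x y hx hy =>
    have := hx.add hy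
    simp only [add_zero] at this
    refine this.congr fun n => ?_
    rw [add_mul, pair_add]
  | single g c =>
    have h1 : Function.Injective (fun n : ℕ => g * z n) := by
      intro n k hnk
      have h2 := mul_left_cancel hnk
      have h3 := congrArg (fun w : G3 => Multiplicative.toAdd w.2) h2
      simpa [z] using h3
    have h2 : Tendsto (fun n : ℕ => φ (g * z n)) atTop (𝓝 0) := by
      rw [← Nat.cofinite_eq_atTop]
      exact hφ.comp h1.tendsto_cofinite
    have h3 := h2.const_mul c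
    rw [mul_zero] at h3
    refine h3.congr fun n => ?_
    rw [s_pow, single_mul_single, mul_one, pair_single]

lemma pair_nu (φ : G3 → ℂ) (hφ : Tendsto φ cofinite (𝓝 0)) :
    Tendsto (fun n : ℕ => pair φ (nu n)) atTop (𝓝 0) := by
  have h1 := (pair_tendsto φ hφ (s - N)).cesaro_smul
  have h2 := h1.add (pair_tendsto φ hφ N)
  rw [add_zero] at h2
  refine h2.congr' ?_
  filter_upwards [eventually_ne_atTop 0] with n hn
  rw [nu_eq n hn, pair_add, pair_smul, pair_sum]
  congr 1
  rw [Complex.real_smul]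
  push_cast
  rfl

lemma tendsto_single (x : G3) : Tendsto (fun g : G3 => open Classical in if g = x then (1 : ℂ) else 0)
    cofinite (𝓝 0) := by
  refine tendsto_const_nhds.congr' ?_
  have : ∀ᶠ g in cofinite, g ≠ x := by
    rw [eventually_cofinite]
    simp
  filter_upwards [this] with g hg
  simp [hg]

lemma coeff_nu_tendsto (x : G3) : Tendsto (fun n : ℕ => (nu n).coeff x) atTop (𝓝 0) := by
  refine (pair_nu _ (tendsto_single x)).congr fun n => ?_
  rw [pair, tsum_eq_single x]
  · simp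
  · intro g hg
    simp [hg]

lemma coeff_nu_b (n : ℕ) (hn : n ≠ 0) : (nu n).coeff (b, Multiplicative.ofAdd (n : ℤ)) = 1 := by
  rw [nu_eq n hn]
  have e1 : (N * s ^ n).coeff (b, Multiplicative.ofAdd (n : ℤ)) = 1 := by
    rw [coeff_mul_s]
    have : ((b, Multiplicative.ofAdd (n : ℤ)) : G3) * z (-n) = (b, 1) := by
      ext : 1
      · simp [z]
      · simp [z, ← ofAdd_add]
    rw [this, N_coeff_b]
  have e2 : ∀ k ∈ Finset.range n, ((s - N) * s ^ k).coeff (b, Multiplicative.ofAdd (n : ℤ)) = 0 := by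
    intro k hk
    rw [Finset.mem_range] at hk
    rw [coeff_mul_s]
    have e3 : ((b, Multiplicative.ofAdd (n : ℤ)) : G3) * z (-k) =
        (b, Multiplicative.ofAdd ((n : ℤ) - k)) := by
      ext : 1
      · simp [z]
      · change Multiplicative.ofAdd (n : ℤ) * Multiplicative.ofAdd (-(k : ℤ)) = _
        rw [← ofAdd_add, sub_eq_add_neg]
    rw [e3, coeff_sub, Finsupp.sub_apply, N_coeff_ne, sub_zero, s, coeff_single]
    · rw [Finsupp.single_apply, if_neg]
      intro h
      have := congrArg Prod.fst h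
      revert this
      change (1 : Equiv.Perm (Fin 3)) = b → False
      decide
    · intro h
      have h2 := congrArg Multiplicative.toAdd h
      simp at h2
      omega
  rw [coeff_add, Finsupp.add_apply, e1, coeff_smul, Finsupp.smul_apply]
  have e4 : (∑ k ∈ Finset.range n, (s - N) * s ^ k).coeff (b, Multiplicative.ofAdd (n : ℤ)) =
      ∑ k ∈ Finset.range n, ((s - N) * s ^ k).coeff (b, Multiplicative.ofAdd (n : ℤ)) := by
    rw [coeff_sum, Finsupp.finsetSum_apply]
  rw [e4, Finset.sum_eq_zero e2]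
  simp

lemma nu_coeff (n : ℕ) (x : G3) :
    (nu n).coeff x = (n : ℂ)⁻¹ * ∑ k ∈ Finset.range n, cpow m.coeff (k + 1) x := by
  rw [nu, coeff_smul, Finsupp.smul_apply, smul_eq_mul, coeff_sum, Finsupp.finsetSum_apply]
  congr 1
  apply Finset.sum_congr rfl
  intro k _
  rw [cpow_coeff]

lemma vague : VagueErgodic (m.coeff : G3 → ℂ) := by
  refine ⟨0, by simp, fun φ hφ => ?_⟩
  have := pair_nu φ hφ
  simp only [Pi.zero_apply, mul_zero, tsum_zero]
  refine this.congr fun n => ?_
  rw [pair]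
  apply tsum_congr
  intro x
  rw [nu_coeff]

lemma iterate_conv (x : ℂ[G3]) (k : ℕ) :
    (conv x.coeff)^[k] (1 : ℂ[G3]).coeff = (x ^ k).coeff := by
  induction k with
  | zero => simp
  | succ k ih => rw [Function.iterate_succ_apply', ih, conv_coeff, pow_succ']

lemma avg_one (n : ℕ) (x : G3) : avg m.coeff (1 : ℂ[G3]).coeff n x = (nu n).coeff x := by
  rw [avg, nu, coeff_smul, Finsupp.smul_apply, smul_eq_mul, coeff_sum, Finsupp.finsetSum_apply]
  congr 1
  apply Finset.sum_congr rfl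
  intro k _
  rw [iterate_conv]

lemma summable_sub (p : ℝ) (x : ℂ[G3]) (g : G3 → ℂ) (hg : MemL p g) :
    Summable fun y => ‖x.coeff y - g y‖ ^ p := by
  refine Summable.congr_cofinite hg ?_
  have h : {y | x.coeff y ≠ 0}.Finite := by
    refine x.coeff.support.finite_toSet.subset fun y hy => ?_
    exact Finsupp.mem_support_iff.2 hy
  filter_upwards [h.compl_mem_cofinite] with y hy
  have : x.coeff y = 0 := by
    by_contra h
    exact hy h
  rw [this, zero_sub, norm_neg]

lemma not_mean (p : ℝ) (hp : 1 < p) : ¬ MeanErgodic p (m.coeff : G3 → ℂ) := by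
  intro h
  have h1 : MemL p ((1 : ℂ[G3]).coeff : G3 → ℂ) := by
    have := summable_sub p 1 0 (by simp [MemL, Real.zero_rpow (by linarith : p ≠ 0)])
    simpa [MemL] using this
  obtain ⟨g, hg, hlim⟩ := h _ h1
  simp only [avg_one] at hlim
  have hle : ∀ (n : ℕ) (x : G3), ‖(nu n).coeff x - g x‖ ^ p ≤ ∑' y, ‖(nu n).coeff y - g y‖ ^ p := by
    intro n x
    exact (summable_sub p (nu n) g hg).le_tsum x (fun y _ => by positivity)
  have hg0 : ∀ x, g x = 0 := by
    intro x
    have e1 : Tendsto (fun n : ℕ => ‖(nu n).coeff x - g x‖ ^ p) atTop (𝓝 0) :=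
      squeeze_zero (fun n => by positivity) (fun n => hle n x) hlim
    have e2 : Tendsto (fun n : ℕ => ‖(nu n).coeff x - g x‖ ^ p) atTop (𝓝 (‖0 - g x‖ ^ p)) := by
      refine Tendsto.rpow_const ?_ (Or.inr (by linarith))
      exact ((coeff_nu_tendsto x).sub_const (g x)).norm
    have e3 := tendsto_nhds_unique e2 e1
    rw [zero_sub, norm_neg, Real.rpow_eq_zero (norm_nonneg _) (by linarith)] at e3
    exact norm_eq_zero.1 e3
  have h6 : ∀ᶠ n : ℕ in atTop, ∑' y, ‖(nu n).coeff y - g y‖ ^ p < 1 :=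
    hlim.eventually (gt_mem_nhds one_pos)
  obtain ⟨n, hn, hn0⟩ := (h6.and (eventually_ne_atTop 0)).exists
  have h7 := hle n (b, Multiplicative.ofAdd (n : ℤ))
  rw [coeff_nu_b n hn0, hg0, sub_zero, norm_one, Real.one_rpow] at h7
  linarith

/-- There are a (discrete) group `G` and a bounded complex measure `μ` on it, given by a summable
function, such that `μ` is vague-ergodic but for no `1 < p < ∞` the convolution operator by `μ` on
`Lᵖ(G) = ℓᵖ(G)` is mean ergodic. -/
theorem result : ∃ (G : Type) (_ : Group G) (μ : G → ℂ), Summable (fun x => ‖μ x‖) ∧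
    VagueErgodic μ ∧ ∀ p : ℝ, 1 < p → ¬ MeanErgodic p μ := by
  refine ⟨G3, inferInstance, m.coeff, ?_, vague, not_mean⟩
  apply summable_of_ne_finset_zero (s := m.coeff.support)
  intro x hx
  rw [Finsupp.notMem_support_iff.1 hx, norm_zero]

end Pool.Agent.Results.MP_ec348e_an.VagueNotMean
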